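import Pool.Agent.Q170.WD.St

/-!
# Project WD, job DIM: dimensions of primes of a polynomial ring
-/

set_option autoImplicit false

namespace Pool.Agent.Q113.WD

open MvPolynomial Pool.Agent.Q170.WD

section

variable {L : Type} [Field L] {N : ℕ}

/-- the images of the variables in a quotient -/
noncomputable def xs (P : Ideal (MvPolynomial (Fin N) L)) :
    Fin N → MvPolynomial (Fin N) L ⧸ P :=
  fun i => Ideal.Quotient.mkₐ L P (X i)

lemma aeval_xs (P : Ideal (MvPolynomial (Fin N) L)) (f : MvPolynomial (Fin N) L) :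
    aeval (xs P) f = Ideal.Quotient.mkₐ L P f := by
  have h : (aeval (xs P) : MvPolynomial (Fin N) L →ₐ[L] _) = Ideal.Quotient.mkₐ L P := by
    apply MvPolynomial.algHom_ext
    intro i
    rw [aeval_X]
    rfl
  rw [h]

lemma mem_adjoin_xs (P : Ideal (MvPolynomial (Fin N) L)) (a : MvPolynomial (Fin N) L ⧸ P) :
    a ∈ Algebra.adjoin L (Set.range (xs P)) := by
  obtain ⟨f, rfl⟩ := Ideal.Quotient.mkₐ_surjective L P a
  rw [Algebra.adjoin_range_eq_range_aeval]
  exact ⟨f, aeval_xs P f⟩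

lemma isAlgebraic_xs (P : Ideal (MvPolynomial (Fin N) L)) (hP : P.IsPrime) :
    Algebra.IsAlgebraic (Algebra.adjoin L (Set.range (xs P))) (MvPolynomial (Fin N) L ⧸ P) := by
  have hnt : Nontrivial (MvPolynomial (Fin N) L ⧸ P) := Ideal.Quotient.nontrivial_iff.mpr hP.ne_top
  constructor
  intro a
  exact isAlgebraic_algebraMap
    (⟨a, mem_adjoin_xs P a⟩ : Algebra.adjoin L (Set.range (xs P)))

lemma part_one (P : Ideal (MvPolynomial (Fin N) L)) (hP : P.IsPrime) :
    ∃ d, d ≤ N ∧ Dim P d ∧ (d = N → P = ⊥) := by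
  have hnt : Nontrivial (MvPolynomial (Fin N) L ⧸ P) := Ideal.Quotient.nontrivial_iff.mpr hP.ne_top
  have hdom : IsDomain (MvPolynomial (Fin N) L ⧸ P) := Ideal.Quotient.isDomain P
  have halg := isAlgebraic_xs P hP
  have h1 : Algebra.trdeg L (MvPolynomial (Fin N) L ⧸ P) ≤ Cardinal.mk (Set.range (xs P)) :=
    Algebra.IsAlgebraic.trdeg_le_cardinalMk L (Set.range (xs P))
  have h2 : Cardinal.mk (Set.range (xs P)) ≤ (N : Cardinal) := by
    have := Cardinal.mk_range_le (f := xs P)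
    simpa using this
  have h3 := h1.trans h2
  obtain ⟨d, hd⟩ := Cardinal.lt_aleph0.mp (h3.trans_lt (Cardinal.natCast_lt_aleph0))
  refine ⟨d, ?_, hd, ?_⟩
  · rw [hd] at h3
    exact_mod_cast h3
  · intro hdN
    subst hdN
    have hb : IsTranscendenceBasis L (xs P) :=
      Algebra.IsAlgebraic.isTranscendenceBasis_of_le_trdeg_of_finite L (xs P)
        (by rw [hd]; simp)
    have hi : Function.Injective
        (aeval (xs P) : MvPolynomial (Fin d) L →ₐ[L] (MvPolynomial (Fin d) L ⧸ P)) := hb.1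
    rw [eq_bot_iff]
    intro f hf
    have h0 : aeval (xs P) f = aeval (xs P) (0 : MvPolynomial (Fin d) L) := by
      rw [aeval_xs, map_zero]
      exact Ideal.Quotient.eq_zero_iff_mem.mpr hf
    have := hi h0
    rw [this]
    exact Submodule.zero_mem _

lemma part_two (P Q : Ideal (MvPolynomial (Fin N) L)) (hP : P.IsPrime) (hQ : Q.IsPrime)
    (hlt : P < Q) (d k : ℕ) (hd : Dim P d) (hk : Dim Q k) : k < d := by
  have hntP : Nontrivial (MvPolynomial (Fin N) L ⧸ P) := Ideal.Quotient.nontrivial_iff.mpr hP.ne_top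
  have hdomP : IsDomain (MvPolynomial (Fin N) L ⧸ P) := Ideal.Quotient.isDomain P
  have hntQ : Nontrivial (MvPolynomial (Fin N) L ⧸ Q) := Ideal.Quotient.nontrivial_iff.mpr hQ.ne_top
  have hdomQ : IsDomain (MvPolynomial (Fin N) L ⧸ Q) := Ideal.Quotient.isDomain Q
  have halgQ := isAlgebraic_xs Q hQ
  by_contra hcon
  have hdk : d ≤ k := not_lt.mp hcon
  obtain ⟨t, hts, htb⟩ := exists_isTranscendenceBasis_subset (R := L) (Set.range (xs Q))
  have hcard : Cardinal.mk t = (k : Cardinal) := by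
    rw [htb.cardinalMk_eq_trdeg]
    exact hk
  have hfin : Finite t := by
    rw [← Cardinal.lt_aleph0_iff_finite, hcard]
    exact Cardinal.natCast_lt_aleph0
  choose g hg using fun a : t => hts a.2
  have hcomp : (xs Q) ∘ g = ((↑) : t → MvPolynomial (Fin N) L ⧸ Q) := by
    funext a
    exact hg a
  have hindQ : AlgebraicIndependent L ((xs Q) ∘ g) := by
    rw [hcomp]
    exact htb.1
  -- the map of the quotients
  let φ : (MvPolynomial (Fin N) L ⧸ P) →ₐ[L] (MvPolynomial (Fin N) L ⧸ Q) :=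
    Ideal.Quotient.factorₐ L hlt.le
  have hφ : ∀ f : MvPolynomial (Fin N) L,
      φ (Ideal.Quotient.mkₐ L P f) = Ideal.Quotient.mkₐ L Q f := by
    intro f
    rfl
  have hφx : φ ∘ ((xs P) ∘ g) = (xs Q) ∘ g := by
    funext a
    exact hφ (X (g a))
  have hindP : AlgebraicIndependent L ((xs P) ∘ g) := by
    apply AlgebraicIndependent.of_comp φ
    rw [hφx]
    exact hindQ
  have hbP : IsTranscendenceBasis L ((xs P) ∘ g) := by
    apply hindP.isTranscendenceBasis_of_trdeg_le_of_finite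
    rw [hcard]
    have : Algebra.trdeg L (MvPolynomial (Fin N) L ⧸ P) = (d : Cardinal) := hd
    rw [this]
    exact_mod_cast hdk
  have halgP := hbP.isAlgebraic
  obtain ⟨f, hfQ, hfP⟩ := SetLike.exists_of_lt hlt
  have hf0 : Ideal.Quotient.mkₐ L P f ≠ 0 := by
    intro h
    exact hfP (Ideal.Quotient.eq_zero_iff_mem.mp h)
  obtain ⟨r, hr0, hdvd⟩ := (halgP.isAlgebraic (Ideal.Quotient.mkₐ L P f)).exists_nonzero_dvd
    (mem_nonZeroDivisors_of_ne_zero hf0)
  have hr : (r : MvPolynomial (Fin N) L ⧸ P) ∈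
      (aeval ((xs P) ∘ g) : MvPolynomial t L →ₐ[L] (MvPolynomial (Fin N) L ⧸ P)).range :=
    (Algebra.adjoin_range_eq_range_aeval L ((xs P) ∘ g)) ▸ r.2
  obtain ⟨p, hp⟩ := hr
  have hp0 : p ≠ 0 := by
    intro h
    apply hr0
    apply Subtype.ext
    rw [← hp, h]
    exact map_zero _
  have hQ0 : φ (r : MvPolynomial (Fin N) L ⧸ P) = 0 := by
    obtain ⟨c, hc⟩ := hdvd
    have hc' : (r : MvPolynomial (Fin N) L ⧸ P) = Ideal.Quotient.mkₐ L P f * c := hc
    rw [hc', map_mul, hφ]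
    have : Ideal.Quotient.mkₐ L Q f = 0 := Ideal.Quotient.eq_zero_iff_mem.mpr hfQ
    rw [this, zero_mul]
  have hpQ : aeval ((xs Q) ∘ g) p = 0 := by
    rw [← hφx]
    have h1 : φ (aeval ((xs P) ∘ g) p) = aeval (φ ∘ ((xs P) ∘ g)) p := by
      rw [MvPolynomial.comp_aeval_apply]
      rfl
    rw [← h1]
    have h2 : aeval ((xs P) ∘ g) p = (r : MvPolynomial (Fin N) L ⧸ P) := hp
    rw [h2]
    exact hQ0
  exact hp0 (hindQ.eq_zero_of_aeval_eq_zero p hpQ)

end

/-- JOB DIM -/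
theorem t_DIM : S_DIM :=
  ⟨fun _ _ _ P hP => part_one P hP,
    fun _ _ _ P Q hP hQ hlt d k hd hk => part_two P Q hP hQ hlt d k hd hk⟩

end Pool.Agent.Q113.WD
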